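import Mathlib

/-!
MP_0db6a9_al, number of variables: the closure operator `acl` (module of `NV`).
-/

namespace Pool.Agent.NV

/-- The elements of `K` that are algebraic over the subfield generated by `S`. -/
noncomputable def acl {K : Type*} [Field K] (S : Set K) : Subfield K :=
  (algebraicClosure (Subfield.closure S) K).toSubfield

theorem mem_acl {K : Type*} [Field K] (S : Set K) (y : K) :
    y ∈ acl S ↔ IsAlgebraic (Subfield.closure S) y := by
  show y ∈ algebraicClosure (Subfield.closure S) K ↔ _
  exact mem_algebraicClosure_iff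

theorem isAlgClosed_acl {K : Type*} [Field K] [IsAlgClosed K] (S : Set K) :
    IsAlgClosed (acl S) := by
  have h : IsAlgClosed (algebraicClosure (Subfield.closure S) K) :=
    (inferInstance : IsAlgClosure (Subfield.closure S)
      (algebraicClosure (Subfield.closure S) K)).isAlgClosed
  exact h

theorem subset_acl {K : Type*} [Field K] (S : Set K) : S ⊆ acl S := by
  intro y hy
  rw [SetLike.mem_coe, mem_acl]
  exact isAlgebraic_algebraMap (⟨y, Subfield.subset_closure hy⟩ : Subfield.closure S)

theorem mem_of_isAlgebraic {K : Type*} [Field K] (A : Subfield K) [IsAlgClosed A] {y : K}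
    (h : IsAlgebraic A y) : y ∈ A := by
  have h1 : (minpoly A y).degree = 1 :=
    IsAlgClosed.degree_eq_one_of_irreducible A (minpoly.irreducible h.isIntegral)
  obtain ⟨a, ha⟩ := minpoly.mem_range_of_degree_eq_one A y h1
  rw [← ha]
  exact a.2

theorem isAlgebraic_mono {K : Type*} [Field K] {A B : Subfield K} (hAB : A ≤ B) {y : K}
    (h : IsAlgebraic A y) : IsAlgebraic B y :=
  h.ringHom_of_comp_eq (Subfield.inclusion hAB) (RingHom.id K)
    (Subfield.inclusion hAB).injective rfl

theorem mem_acl_of_isAlgebraic {K : Type*} [Field K] [IsAlgClosed K] {S : Set K} {A : Subfield K}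
    (hA : A ≤ acl S) {y : K} (h : IsAlgebraic A y) : y ∈ acl S := by
  haveI := isAlgClosed_acl (K := K) S
  exact mem_of_isAlgebraic (acl S) (isAlgebraic_mono hA h)

theorem acl_le {K : Type*} [Field K] [IsAlgClosed K] {S T : Set K} (h : S ⊆ acl T) :
    acl S ≤ acl T := by
  intro y hy
  rw [mem_acl] at hy
  exact mem_acl_of_isAlgebraic (Subfield.closure_le.2 h) hy

theorem acl_mono {K : Type*} [Field K] {S T : Set K} (h : S ⊆ T) : acl S ≤ acl T := by
  intro y hy
  rw [mem_acl] at hy ⊢
  exact isAlgebraic_mono (Subfield.closure_mono h) hy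

theorem map_mem_acl {K K' : Type*} [Field K] [Field K'] (φ : K →+* K') (S : Set K) (y : K) :
    φ y ∈ acl (φ '' S) ↔ y ∈ acl S := by
  rw [mem_acl, mem_acl]
  have hmap : (Subfield.closure S).map φ = Subfield.closure (φ '' S) := RingHom.map_field_closure φ S
  rw [← hmap]
  let e : (Subfield.closure S) ≃+* ((Subfield.closure S).map φ) :=
    RingEquiv.ofBijective
      ((φ.comp (Subfield.closure S).subtype).codRestrict ((Subfield.closure S).map φ)
        (fun a => ⟨a, a.2, rfl⟩))
      ⟨RingHom.injective _, by
        rintro ⟨_, a, ha, rfl⟩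
        exact ⟨⟨a, ha⟩, rfl⟩⟩
  exact isAlgebraic_ringHom_iff_of_comp_eq e φ φ.injective rfl

end Pool.Agent.NV
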