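import Pool.Agent.Lib.NV.Up
import Pool.Agent.Lib.RD.Clos

/-!
MP_0db6a9_al, number of variables: the base case (module of `NV`).
-/

namespace Pool.Agent.NV

open MvPolynomial Pool.Agent.RD

/-- The algebraic closure of `k(x_1, ..., x_n)`. -/
abbrev KK (k : Type) [Field k] (n : ℕ) : Type :=
  AlgebraicClosure (FractionRing (MvPolynomial (Fin n) k))

/-- The indeterminates. -/
noncomputable abbrev XX (k : Type) [Field k] (n : ℕ) : Fin n → KK k n := fun i =>
  algebraMap (MvPolynomial (Fin n) k) (KK k n) (X i)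

theorem Mr_le {k K : Type} [Field k] [Field K] [Algebra k K] {n r : ℕ} (x : Fin n → K)
    (L : IntermediateField k K) (hx : ∀ i, x i ∈ L) (hL : SuperClosed k K r L) :
    Mr k K x r ≤ L := by
  rw [Mr]
  refine iSup_le fun s => ?_
  induction s with
  | zero =>
    rw [stage, IntermediateField.adjoin_le_iff]
    rintro _ ⟨i, rfl⟩
    exact hx i
  | succ s ih =>
    rw [stage]
    refine iSup_le fun t => ?_
    intro y hy
    rw [bracket, IntermediateField.mem_restrictScalars] at hy
    exact hL t.1 (fun j => ih (t.2 j)) y (mem_algebraicClosure_iff.1 hy)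

theorem isAlgebraic_adjoin_iff {k K : Type} [Field k] [Field K] [Algebra k K] (S : Set K) (y : K) :
    IsAlgebraic (IntermediateField.adjoin k S) y ↔ y ∈ acl (Set.range (algebraMap k K) ∪ S) := by
  rw [mem_acl]
  have h : ∀ z, z ∈ IntermediateField.adjoin k S ↔
      z ∈ Subfield.closure (Set.range (algebraMap k K) ∪ S) := fun z => Iff.rfl
  constructor
  · intro hy
    exact hy.ringHom_of_comp_eq
      (((IntermediateField.adjoin k S).val : _ →+* K).codRestrict
        (Subfield.closure (Set.range (algebraMap k K) ∪ S)) (fun a => (h _).1 a.2))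
      (RingHom.id K) (RingHom.injective _) rfl
  · intro hy
    exact hy.ringHom_of_comp_eq
      (((Subfield.closure (Set.range (algebraMap k K) ∪ S)).subtype).codRestrict
        (IntermediateField.adjoin k S) (fun a => (h _).2 a.2))
      (RingHom.id K) (RingHom.injective _) rfl

/-- Transport of a closed field along `X_i ↦ g (X_i)`. -/
theorem acl_le_of_top {k : Type} [Field k] {n r : ℕ}
    (hT : Mr k (KK k n) (XX k n) r = ⊤) {K : Type} [Field K] [IsAlgClosed K] (F : Set K)
    (L : Subfield K) (hFL : F ⊆ L) (hL : Clo F r L) (g : MvPolynomial (Fin n) k →+* K)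
    (hg : Function.Injective g) (hgC : ∀ c, g (C c) ∈ F) (hgX : ∀ i, g (X i) ∈ L) :
    acl (Set.range g) ≤ L := by
  let g' : FractionRing (MvPolynomial (Fin n) k) →+* K := IsFractionRing.lift hg
  letI : Algebra (FractionRing (MvPolynomial (Fin n) k)) K := g'.toAlgebra
  let φ : KK k n →ₐ[FractionRing (MvPolynomial (Fin n) k)] K := IsAlgClosed.lift
  have hφ : ∀ p : MvPolynomial (Fin n) k, φ (algebraMap _ (KK k n) p) = g p := by
    intro p
    rw [IsScalarTower.algebraMap_apply (MvPolynomial (Fin n) k)
      (FractionRing (MvPolynomial (Fin n) k)) (KK k n), AlgHom.commutes]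
    exact IsFractionRing.lift_algebraMap hg p
  have hk : ∀ c : k, φ (algebraMap k (KK k n) c) = g (C c) := by
    intro c
    rw [← hφ, ← MvPolynomial.algebraMap_eq, ← IsScalarTower.algebraMap_apply]
  let L' : IntermediateField k (KK k n) :=
    { L.comap (φ : KK k n →+* K) with
      algebraMap_mem' := fun c => by
        show φ (algebraMap k (KK k n) c) ∈ L
        rw [hk]
        exact hFL (hgC c) }
  have hL' : ∀ z, z ∈ L' ↔ φ z ∈ L := fun z => Iff.rfl
  have hcl : SuperClosed k (KK k n) r L' := by
    intro t ht y hy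
    rw [isAlgebraic_adjoin_iff, ← map_mem_acl (φ : KK k n →+* K)] at hy
    rw [hL']
    refine hL (fun j => φ (t j)) (fun j => (hL' _).1 (ht j)) (acl_mono ?_ hy)
    rintro _ ⟨z, (⟨c, rfl⟩ | ⟨j, rfl⟩), rfl⟩
    · left
      show φ (algebraMap k (KK k n) c) ∈ F
      rw [hk]; exact hgC c
    · right; exact ⟨j, rfl⟩
  have htop : ∀ z : KK k n, φ z ∈ L := by
    intro z
    rw [← hL']
    refine Mr_le (XX k n) L' (fun i => ?_) hcl ?_
    · rw [hL']
      show φ (algebraMap _ (KK k n) (X i)) ∈ L
      rw [hφ]; exact hgX i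
    · rw [hT]; trivial
  have hAC : IsAlgClosed (φ : KK k n →+* K).fieldRange :=
    IsAlgClosed.of_ringEquiv (KK k n) _ (RingEquiv.ofBijective
      ((φ : KK k n →+* K).rangeRestrictField)
      ⟨RingHom.injective _, (φ : KK k n →+* K).rangeRestrictField_bijective.2⟩)
  intro y hy
  rw [mem_acl] at hy
  have hle : Subfield.closure (Set.range g) ≤ (φ : KK k n →+* K).fieldRange := by
    rw [Subfield.closure_le]
    rintro _ ⟨p, rfl⟩
    exact ⟨algebraMap _ (KK k n) p, hφ p⟩
  obtain ⟨z, hz⟩ := mem_of_isAlgebraic _ (isAlgebraic_mono hle hy)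
  rw [← hz]
  exact htop z

theorem acl_KK (k : Type) [Field k] (n : ℕ) :
    acl (Set.range (algebraMap k (KK k n)) ∪ Set.range (XX k n)) = ⊤ := by
  rw [eq_top_iff]
  intro y _
  rw [mem_acl]
  have h1 : IsAlgebraic (FractionRing (MvPolynomial (Fin n) k)) y :=
    Algebra.IsAlgebraic.isAlgebraic y
  have hmv : ∀ p : MvPolynomial (Fin n) k, algebraMap _ (KK k n) p ∈
      Subfield.closure (Set.range (algebraMap k (KK k n)) ∪ Set.range (XX k n)) := by
    intro p
    induction p using MvPolynomial.induction_on with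
    | C a =>
      refine Subfield.subset_closure (Or.inl ⟨a, ?_⟩)
      rw [← MvPolynomial.algebraMap_eq, ← IsScalarTower.algebraMap_apply]
    | add p q hp hq => rw [map_add]; exact add_mem hp hq
    | mul_X p i hp =>
      rw [map_mul]
      exact mul_mem hp (Subfield.subset_closure (Or.inr ⟨i, rfl⟩))
  have hfr : ∀ a : FractionRing (MvPolynomial (Fin n) k), algebraMap _ (KK k n) a ∈
      Subfield.closure (Set.range (algebraMap k (KK k n)) ∪ Set.range (XX k n)) := by
    intro a
    obtain ⟨p, q, _, rfl⟩ := IsFractionRing.div_surjective (A := MvPolynomial (Fin n) k) a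
    rw [map_div₀, ← IsScalarTower.algebraMap_apply, ← IsScalarTower.algebraMap_apply]
    exact div_mem (hmv p) (hmv q)
  exact h1.ringHom_of_comp_eq
    ((algebraMap (FractionRing (MvPolynomial (Fin n) k)) (KK k n)).codRestrict _ hfr)
    (RingHom.id _) (RingHom.injective _) rfl

end Pool.Agent.NV
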