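import Pool.Agent.Lib.NV.Base

/-!
MP_0db6a9_al, number of variables: from the problem's field to arbitrary fields (module of `NV`).
-/

namespace Pool.Agent.NV

open MvPolynomial Pool.Agent.RD

theorem base {k : Type} [Field k] [IsAlgClosed k] {n r : ℕ}
    (hst : ∀ (A : Type) [Field A] [IsAlgClosed A] (f : k →+* A) (S : Set A), S.Finite →
      acl (Set.range f ∪ S) = ⊤ → Nonempty (k ≃+* A))
    (hT : Mr k (KK k n) (XX k n) r = ⊤) : P k n r := by
  classical
  intro K _ _ f x hx L hf hxL hL
  letI : Algebra k K := f.toAlgebra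
  have hfk : algebraMap k K = f := rfl
  have halg : Algebra.IsAlgebraic (Algebra.adjoin k (Set.range x)) K := by
    have h1 : Algebra.IsAlgebraic (IntermediateField.adjoin k (Set.range x)) K := by
      refine ⟨fun y => ?_⟩
      rw [isAlgebraic_adjoin_iff, hfk, hx]
      trivial
    open scoped IntermediateField.algebraAdjoinAdjoin in
    exact (IsFractionRing.comap_isAlgebraic_iff (A := Algebra.adjoin k (Set.range x))
      (K := IntermediateField.adjoin k (Set.range x)) (C := K)).2 h1
  obtain ⟨T, hTs, hTb⟩ := exists_isTranscendenceBasis_subset (R := k) (Set.range x)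
  have hTfin : T.Finite := (Set.finite_range x).subset hTs
  haveI : Fintype T := hTfin.fintype
  set m := Fintype.card T with hm
  have hmn : m ≤ n := by
    have h1 : Fintype.card T ≤ Fintype.card (Set.range x) :=
      Fintype.card_le_of_injective (Set.inclusion hTs) (Set.inclusion_injective hTs)
    have h2 : Fintype.card (Set.range x) ≤ Fintype.card (Fin n) := Fintype.card_range_le x
    rw [Fintype.card_fin] at h2
    omega
  let y : Fin m → K := fun i => (((Fintype.equivFin T).symm i : T) : K)
  have hyb : IsTranscendenceBasis k y := hTb.comp_equiv (Fintype.equivFin T).symm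
  have hyx : ∀ i, y i ∈ Set.range x := fun i => hTs ((Fintype.equivFin T).symm i).2
  obtain ⟨e⟩ : Nonempty (k ≃+* KK k (n - m)) :=
    hst (KK k (n - m)) (algebraMap k _) (Set.range (XX k (n - m))) (Set.finite_range _)
      (acl_KK k (n - m))
  let e' : Fin n ≃ Fin m ⊕ Fin (n - m) :=
    (finCongr (by omega : n = m + (n - m))).trans finSumFinEquiv.symm
  let g₀ : MvPolynomial (Fin m) (MvPolynomial (Fin (n - m)) k) →+* K :=
    (eval₂Hom f y).comp ((MvPolynomial.map (e.symm : KK k (n - m) →+* k)).comp
      (MvPolynomial.map (algebraMap (MvPolynomial (Fin (n - m)) k) (KK k (n - m)))))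
  let g : MvPolynomial (Fin n) k →+* K :=
    g₀.comp ((sumAlgEquiv k (Fin m) (Fin (n - m))).toRingEquiv.toRingHom.comp
      (renameEquiv k e').toRingEquiv.toRingHom)
  have hinj : Function.Injective g := by
    have h1 : Function.Injective (eval₂Hom f y) := hyb.1
    have h2 : Function.Injective (MvPolynomial.map (σ := Fin m)
        (e.symm : KK k (n - m) →+* k)) := map_injective _ (RingHom.injective _)
    have hAi : Function.Injective
        (algebraMap (MvPolynomial (Fin (n - m)) k) (KK k (n - m))) := by
      rw [IsScalarTower.algebraMap_eq (MvPolynomial (Fin (n - m)) k)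
        (FractionRing (MvPolynomial (Fin (n - m)) k)) (KK k (n - m)), RingHom.coe_comp]
      exact (RingHom.injective (algebraMap (FractionRing (MvPolynomial (Fin (n - m)) k))
        (KK k (n - m)))).comp (IsFractionRing.injective (MvPolynomial (Fin (n - m)) k)
          (FractionRing (MvPolynomial (Fin (n - m)) k)))
    have h3 : Function.Injective (MvPolynomial.map (σ := Fin m)
        (algebraMap (MvPolynomial (Fin (n - m)) k) (KK k (n - m)))) :=
      map_injective _ hAi
    exact ((h1.comp (h2.comp h3)).comp (sumAlgEquiv k (Fin m) (Fin (n - m))).injective).comp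
      (renameEquiv k e').injective
  have hgC : ∀ c, g (C c) = f (e.symm (algebraMap k (KK k (n - m)) c)) := by
    intro c
    have h1 : (renameEquiv k e') (C c) = C c := by simp
    have h2 : algebraMap (MvPolynomial (Fin (n - m)) k) (KK k (n - m)) (C c) =
        algebraMap k (KK k (n - m)) c := by
      rw [← MvPolynomial.algebraMap_eq, ← IsScalarTower.algebraMap_apply]
    show g₀ ((sumAlgEquiv k (Fin m) (Fin (n - m))) ((renameEquiv k e') (C c))) = _
    rw [h1, sumAlgEquiv_C_inl]
    simp only [g₀, RingHom.comp_apply, map_C, h2, coe_eval₂Hom, eval₂_C, RingHom.coe_coe]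
  have hgl : ∀ j, g (X (e'.symm (Sum.inl j))) = y j := by
    intro j
    have h1 : (renameEquiv k e') (X (e'.symm (Sum.inl j))) = X (Sum.inl j) := by simp
    show g₀ ((sumAlgEquiv k (Fin m) (Fin (n - m))) ((renameEquiv k e') _)) = _
    rw [h1, sumAlgEquiv_X_inl]
    simp only [g₀, RingHom.comp_apply, map_X, coe_eval₂Hom, eval₂_X]
  have hgr : ∀ j, g (X (e'.symm (Sum.inr j))) = f (e.symm (XX k (n - m) j)) := by
    intro j
    have h1 : (renameEquiv k e') (X (e'.symm (Sum.inr j))) = X (Sum.inr j) := by simp
    show g₀ ((sumAlgEquiv k (Fin m) (Fin (n - m))) ((renameEquiv k e') _)) = _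
    rw [h1, sumAlgEquiv_X_inr]
    simp only [g₀, RingHom.comp_apply, map_C, coe_eval₂Hom, eval₂_C, RingHom.coe_coe]
  have hgX : ∀ i, g (X i) ∈ L := by
    intro i
    obtain ⟨s, rfl⟩ := e'.symm.surjective i
    rcases s with j | j
    · rw [hgl]
      obtain ⟨i', hi'⟩ := hyx j
      rw [← hi']; exact hxL i'
    · rw [hgr]; exact hf _
  have hle : acl (Set.range g) ≤ L := by
    refine acl_le_of_top hT (Set.range f) L ?_ hL g hinj (fun c => ?_) hgX
    · rintro _ ⟨a, rfl⟩; exact hf a
    · rw [hgC]; exact ⟨_, rfl⟩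
  have hfa : Set.range f ⊆ acl (Set.range g) := by
    rintro _ ⟨a, rfl⟩
    have hu : e a ∈ acl (Set.range (algebraMap k (KK k (n - m))) ∪ Set.range (XX k (n - m))) := by
      rw [acl_KK]; trivial
    rw [← map_mem_acl (f.comp (e.symm : KK k (n - m) →+* k))] at hu
    have h1 : (f.comp (e.symm : KK k (n - m) →+* k)) (e a) = f a := by simp
    rw [h1] at hu
    refine acl_mono ?_ hu
    rintro _ ⟨z, (⟨c, rfl⟩ | ⟨j, rfl⟩), rfl⟩
    · exact ⟨C c, hgC c⟩
    · exact ⟨X (e'.symm (Sum.inr j)), hgr j⟩
  rw [eq_top_iff]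
  refine le_trans ?_ hle
  rw [← hx]
  refine acl_le ?_
  rintro z (hz | ⟨i, rfl⟩)
  · exact hfa hz
  · have h1 : IsAlgebraic (Algebra.adjoin k (Set.range y)) (x i) :=
      hyb.isAlgebraic.isAlgebraic (x i)
    have h2 : x i ∈ acl (Set.range f ∪ Set.range y) := by
      rw [mem_acl]
      have hsub : ∀ a : Algebra.adjoin k (Set.range y),
          (a : K) ∈ Subfield.closure (Set.range f ∪ Set.range y) := by
        intro a
        have h3 : (Algebra.adjoin k (Set.range y)).toSubring ≤
            (Subfield.closure (Set.range f ∪ Set.range y)).toSubring := by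
          rw [Algebra.adjoin_eq_ring_closure]
          exact Subring.closure_le.2 Subfield.subset_closure
        exact h3 a.2
      exact h1.ringHom_of_comp_eq
        ((Subalgebra.val (Algebra.adjoin k (Set.range y)) : _ →+* K).codRestrict _ hsub)
        (RingHom.id K) (fun a b hab => by
          have h4 := congrArg (fun z : Subfield.closure (Set.range f ∪ Set.range y) => (z : K)) hab
          exact Subtype.ext h4) rfl
    refine acl_le ?_ h2
    rintro z (hz | ⟨j, rfl⟩)
    · exact hfa hz
    · exact subset_acl _ ⟨X (e'.symm (Sum.inl j)), hgl j⟩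

/-- One number of variables decides all. -/
theorem all_of_one {k : Type} [Field k] [IsAlgClosed k] {n r : ℕ} (hr : 1 ≤ r) (hrn : r < n)
    (hst : ∀ (A : Type) [Field A] [IsAlgClosed A] (f : k →+* A) (S : Set A), S.Finite →
      acl (Set.range f ∪ S) = ⊤ → Nonempty (k ≃+* A))
    (hT : Mr k (KK k n) (XX k n) r = ⊤) (m : ℕ) : Mr k (KK k m) (XX k m) r = ⊤ := by
  have hP := P_up hrn hst (base hst hT) m
  have hcl := superClosed_Mr (k := k) (XX k m) r hr
  have h1 := hP (KK k m) (algebraMap k _) (XX k m) (acl_KK k m)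
    (Mr k (KK k m) (XX k m) r).toSubfield (fun a => (Mr k (KK k m) (XX k m) r).algebraMap_mem a)
    (fun i => ?_) ?_
  · rw [eq_top_iff]
    intro z _
    have : z ∈ (Mr k (KK k m) (XX k m) r).toSubfield := by rw [h1]; trivial
    exact this
  · show XX k m i ∈ Mr k (KK k m) (XX k m) r
    have h2 : stage k (KK k m) (XX k m) r 0 ≤ Mr k (KK k m) (XX k m) r := by
      rw [Mr]; exact le_iSup (stage k (KK k m) (XX k m) r) 0
    refine h2 ?_
    rw [stage]
    exact IntermediateField.subset_adjoin k _ ⟨i, rfl⟩
  · intro t ht y hy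
    rw [← isAlgebraic_adjoin_iff] at hy
    exact hcl t ht y hy

end Pool.Agent.NV
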