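import Pool.Agent.Lib.NV.Acl

/-!
MP_0db6a9_al, number of variables: a field of infinite transcendence degree is isomorphic to the
algebraic closure of a finitely generated extension of it (module of `NV`).
-/

namespace Pool.Agent.NV

open Cardinal IntermediateField.algebraAdjoinAdjoin in
/-- PROOF: `R` = the prime field `(⊥ : Subfield k)`, `A` an `R`-algebra through `f`. Take a
transcendence basis `B` of `k` over `R` (infinite: otherwise `hk` fails for `B`) and one of `A`
over `k` (via `f`) inside `S` (`exists_isTranscendenceBasis_subset`), finite;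
`IsTranscendenceBasis.sumElim_comp` and `IsAlgClosed.equivOfTranscendenceBasis`. -/
theorem stable {k A : Type} [Field k] [IsAlgClosed k]
    (hk : ∀ s : Finset k, ∃ y : k, ¬ IsAlgebraic (Subfield.closure (s : Set k)) y)
    [Field A] [IsAlgClosed A] (f : k →+* A) (S : Set A) (hS : S.Finite)
    (hA : acl (Set.range f ∪ S) = ⊤) : Nonempty (k ≃+* A) := by
  obtain ⟨B, hB⟩ := exists_isTranscendenceBasis (⊥ : Subfield k) k
  have hinf : B.Infinite := by
    intro hfin
    obtain ⟨y, hy⟩ := hk hfin.toFinset
    rw [hfin.coe_toFinset] at hy
    apply hy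
    have h1 := hB.isAlgebraic
    have h2 : IsAlgebraic (Algebra.adjoin (⊥ : Subfield k) (Set.range ((↑) : B → k))) y :=
      h1.isAlgebraic y
    have hle : ∀ z ∈ Algebra.adjoin (⊥ : Subfield k) (Set.range ((↑) : B → k)),
        z ∈ Subfield.closure B := by
      intro z hz
      induction hz using Algebra.adjoin_induction with
      | mem x hx =>
        rw [Subtype.range_coe] at hx
        exact Subfield.subset_closure hx
      | algebraMap r => exact (bot_le : (⊥ : Subfield k) ≤ Subfield.closure B) r.2
      | add x y _ _ hx hy => exact add_mem hx hy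
      | mul x y _ _ hx hy => exact mul_mem hx hy
    let ι : Algebra.adjoin (⊥ : Subfield k) (Set.range ((↑) : B → k)) →+* Subfield.closure B :=
      { toFun := fun z => ⟨z, hle z z.2⟩
        map_one' := rfl
        map_mul' := fun _ _ => rfl
        map_zero' := rfl
        map_add' := fun _ _ => rfl }
    have hι : Function.Injective ι := by
      intro a b hab
      have h3 : ((ι a : Subfield.closure B) : k) = (ι b : Subfield.closure B) :=
        congrArg (fun z : Subfield.closure B => (z : k)) hab
      exact Subtype.ext h3
    exact h2.ringHom_of_comp_eq ι (RingHom.id k) hι rfl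
  let _ : Algebra k A := f.toAlgebra
  have : Algebra.IsAlgebraic (Algebra.adjoin k S) A := by
    refine ⟨fun y => ?_⟩
    have h1 : y ∈ acl (Set.range f ∪ S) := by rw [hA]; exact Subfield.mem_top y
    rw [mem_acl] at h1
    have h2 : IsAlgebraic (IntermediateField.adjoin k S) y := h1
    exact (IsFractionRing.isAlgebraic_iff (Algebra.adjoin k S) (IntermediateField.adjoin k S) A).2 h2
  obtain ⟨t, hts, ht⟩ := exists_isTranscendenceBasis_subset (R := k) S
  have htf : t.Finite := hS.subset hts
  have hbig := hB.sumElim_comp ht
  have := hinf.to_subtype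
  have := htf.to_subtype
  have hcard : #B = #(t ⊕ B) := by
    rw [Cardinal.mk_sum, Cardinal.lift_id, Cardinal.lift_id]
    refine (Cardinal.add_eq_right (Cardinal.aleph0_le_mk B) ?_).symm
    exact (Cardinal.lt_aleph0_of_finite t).le.trans (Cardinal.aleph0_le_mk B)
  obtain ⟨e⟩ := Cardinal.eq.1 hcard
  exact ⟨IsAlgClosed.equivOfTranscendenceBasis _ _ e hB hbig⟩

end Pool.Agent.NV
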