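import Pool.Agent.Lib.NV.Acl

/-!
MP_0db6a9_al, number of variables: from `m` to `m + 1` variables (module of `NV`).
-/

namespace Pool.Agent.NV

/-- `L` contains everything algebraic over `F(t_1, ..., t_r)`, `t_j ∈ L`. -/
def Clo {K : Type} [Field K] (F : Set K) (r : ℕ) (L : Subfield K) : Prop :=
  ∀ t : Fin r → K, (∀ j, t j ∈ L) → acl (F ∪ Set.range t) ≤ L

/-- `M_r = K` for at most `n` variables over `k`. -/
def P (k : Type) [Field k] (n r : ℕ) : Prop :=
  ∀ (K : Type) [Field K] [IsAlgClosed K] (f : k →+* K) (x : Fin n → K),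
    acl (Set.range f ∪ Set.range x) = ⊤ → ∀ L : Subfield K, (∀ a, f a ∈ L) → (∀ i, x i ∈ L) →
    Clo (Set.range f) r L → L = ⊤

theorem P_mono {k : Type} [Field k] {m n r : ℕ} (hmn : m ≤ n) (h : P k n r) : P k m r := by
  intro K _ _ f x hx L hf hxL hL
  refine h K f (fun i => if hi : (i : ℕ) < m then x ⟨i, hi⟩ else 0) ?_ L hf ?_ hL
  · rw [eq_top_iff, ← hx]
    refine acl_mono (Set.union_subset_union_right _ ?_)
    rintro _ ⟨j, rfl⟩
    refine ⟨⟨j, j.2.trans_le hmn⟩, ?_⟩
    simp only [Fin.is_lt, dite_true]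
  · intro i
    by_cases hi : (i : ℕ) < m
    · simp only [hi, dite_true]; exact hxL _
    · simp only [hi, dite_false]; exact L.zero_mem

/-- (A) -/
theorem clo_of_P {k : Type} [Field k] {n r : ℕ} (h : P k n r) {K : Type} [Field K]
    [IsAlgClosed K] (f : k →+* K) (L : Subfield K) (hf : ∀ a, f a ∈ L)
    (hL : Clo (Set.range f) r L) : Clo (Set.range f) n L := by
  intro t ht
  set A : Subfield K := acl (Set.range f ∪ Set.range t) with hA
  haveI : IsAlgClosed A := isAlgClosed_acl _
  have hfA : ∀ a, f a ∈ A := fun a => subset_acl _ (Or.inl ⟨a, rfl⟩)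
  have htA : ∀ i, t i ∈ A := fun i => subset_acl _ (Or.inr ⟨i, rfl⟩)
  let f' : k →+* A := f.codRestrict A hfA
  let t' : Fin n → A := fun i => ⟨t i, htA i⟩
  have himg : ∀ (m : ℕ) (s : Fin m → A), A.subtype '' (Set.range f' ∪ Set.range s) =
      Set.range f ∪ Set.range fun j => ((s j : A) : K) := by
    intro m s
    rw [Set.image_union, ← Set.range_comp, ← Set.range_comp]
    rfl
  have key : L.comap A.subtype = ⊤ := by
    refine h A f' t' ?_ (L.comap A.subtype) (fun a => hf a) (fun i => ht i) ?_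
    · rw [eq_top_iff]
      intro a _
      rw [← map_mem_acl A.subtype, himg n t']
      exact a.2
    · intro s hs y hy
      show (y : K) ∈ L
      rw [← map_mem_acl A.subtype, himg r s] at hy
      exact hL (fun j => ((s j : A) : K)) (fun j => hs j) hy
  intro y hy
  have : (⟨y, hy⟩ : A) ∈ L.comap A.subtype := by rw [key]; trivial
  exact this

/-- (B) -/
theorem P_succ {k : Type} [Field k] [IsAlgClosed k] {m r : ℕ} (hrm : r + 1 ≤ m)
    (hst : ∀ (A : Type) [Field A] [IsAlgClosed A] (f : k →+* A) (S : Set A), S.Finite →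
      acl (Set.range f ∪ S) = ⊤ → Nonempty (k ≃+* A)) (h : P k m r) : P k (m + 1) r := by
  intro K _ _ f x hx L hf hxL hL
  have hm := clo_of_P h f L hf hL
  set b : K := x (Fin.last m) with hb
  set A : Subfield K := acl (Set.range f ∪ {b}) with hA
  haveI : IsAlgClosed A := isAlgClosed_acl _
  have hfA : ∀ a, f a ∈ A := fun a => subset_acl _ (Or.inl ⟨a, rfl⟩)
  have hbA : b ∈ A := subset_acl _ (Or.inr rfl)
  obtain ⟨e⟩ : Nonempty (k ≃+* A) := by
    refine hst A (f.codRestrict A hfA) {⟨b, hbA⟩} (Set.finite_singleton _) ?_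
    rw [eq_top_iff]
    intro a _
    rw [← map_mem_acl A.subtype]
    have : A.subtype '' (Set.range (f.codRestrict A hfA) ∪ {⟨b, hbA⟩}) = Set.range f ∪ {b} := by
      rw [Set.image_union, ← Set.range_comp, Set.image_singleton]
      rfl
    rw [this]
    exact a.2
  let g : k →+* K := A.subtype.comp (e : k →+* A)
  have hg : Set.range g = (A : Set K) := by
    ext y
    constructor
    · rintro ⟨c, rfl⟩; exact (e c).2
    · intro hy
      exact ⟨e.symm ⟨y, hy⟩, by simp [g]⟩
  -- the (m)-tuple of `b` and `t`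
  have hbig : ∀ t : Fin r → K, (∀ j, t j ∈ L) →
      acl (Set.range f ∪ ({b} ∪ Set.range t)) ≤ L := by
    intro t ht
    have h1 := hm (fun i => if hi : (i : ℕ) < r then t ⟨i, hi⟩ else b) (by
      intro i
      by_cases hi : (i : ℕ) < r
      · simp only [hi, dite_true]; exact ht _
      · simp only [hi, dite_false]; exact hxL _)
    refine (acl_mono (Set.union_subset_union_right _ ?_)).trans h1
    rintro z (hz | ⟨j, rfl⟩)
    · rw [Set.mem_singleton_iff] at hz
      subst hz
      exact ⟨⟨r, hrm⟩, by simp⟩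
    · exact ⟨⟨j, j.2.trans (Nat.lt_of_succ_le hrm)⟩, by simp⟩
  have hAL : A ≤ L := by
    refine (acl_mono (Set.union_subset_union_right _ ?_)).trans
      (hbig (fun _ => b) (fun _ => hxL _))
    exact Set.subset_union_left
  refine h K g (fun i => x i.castSucc) ?_ L (fun a => hAL (e a).2) (fun i => hxL _) ?_
  · rw [eq_top_iff, ← hx]
    refine acl_mono ?_
    rintro z (⟨a, rfl⟩ | ⟨i, rfl⟩)
    · exact Or.inl (by rw [hg]; exact hfA a)
    · refine Fin.lastCases ?_ (fun j => ?_) i
      · exact Or.inl (by rw [hg]; exact hbA)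
      · exact Or.inr ⟨j, rfl⟩
  · intro t ht
    refine le_trans (acl_le ?_) (hbig t ht)
    rw [hg]
    rintro z (hz | hz)
    · exact acl_mono (Set.union_subset_union_right _ Set.subset_union_left) hz
    · exact subset_acl _ (Or.inr (Or.inr hz))

theorem P_up {k : Type} [Field k] [IsAlgClosed k] {n r : ℕ} (hrn : r < n)
    (hst : ∀ (A : Type) [Field A] [IsAlgClosed A] (f : k →+* A) (S : Set A), S.Finite →
      acl (Set.range f ∪ S) = ⊤ → Nonempty (k ≃+* A)) (h : P k n r) (m : ℕ) : P k m r := by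
  have hup : ∀ d, P k (n + d) r := by
    intro d
    induction d with
    | zero => exact h
    | succ d ih => exact P_succ (m := n + d) (by omega) hst ih
  exact P_mono (by omega) (hup m)

end Pool.Agent.NV
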